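import Pool.Agent.Helper6.MONO.Stmts

/-!
MP_c75db0_gt, module PTH: the chart along a path of blocks.
-/

set_option autoImplicit false
noncomputable section
namespace Pool.Agent.Helper6.MONO

theorem pth_allowed {M m : ℕ} {v ε : Bool} (h : allowed M v ε m) : 2 ≤ m ∧ m ≤ M + 1 := by
  rcases h with ⟨_, _, h1, h2⟩ | ⟨_, _, h1, h2⟩ | ⟨_, _, h1, h2⟩ <;> omega

theorem pth_append (G : Fin 3 → Fin 3 → ℂ) (u v : List (Fin 3)) (x : V3) :
    gact G (u ++ v) x = gact G v (gact G u x) := by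
  unfold gact
  rw [List.foldl_append]

theorem pth_dist {c d e : Fin 3} (h : Dist c d e) (ev : Bool) :
    Dist (nx ev c d e).1 (nx ev c d e).2.1 (nx ev c d e).2.2 := by
  cases ev
  · exact ⟨h.2.1, h.2.2, h.1⟩
  · exact ⟨h.2.1.symm, h.1.symm, h.2.2.symm⟩

theorem st_PTH : ST_PTH := by
  intro h1 h2 p q r hp hq hr τ G hG bs
  induction bs with
  | nil =>
    intro c d e v hD _ x ξ z hξ hCh _
    refine ⟨ξ, hξ, hD, hCh, ?_⟩
    simp [fP]
  | cons b bs ih =>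
    obtain ⟨ε, m⟩ := b
    intro c d e v hD hok x ξ z hξ hCh hnP
    obtain ⟨hal, hok'⟩ := hok
    obtain ⟨hN, hn'⟩ := hnP
    obtain ⟨hm2, hm1⟩ := pth_allowed hal
    have hblk : ∃ ξ' : ℂ, ξ' ≠ 0 ∧
        Ch p q r τ G (nx (ev2 m) c d e) (gact G (blk d e ε m) x) ξ'
          (stepV p q r (τ ^ 2) c d e ε m z) ∧
        ‖ξ'‖ ^ 2 = stepF p q r (τ ^ 2) c d e ε m z * ‖ξ‖ ^ 2 := by
      cases hev : ev2 m with
      | true =>
        have := h1 p q r hp hq hr τ G hG c d e hD ε m hm2 hm1 hev x ξ z hξ hCh hN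
        rw [hev] at this
        exact this
      | false =>
        have := h2 p q r hp hq hr τ G hG c d e hD ε m hm2 hm1 hev x ξ z hξ hCh hN
        rw [hev] at this
        exact this
    obtain ⟨ξ1, hξ1, hCh1, hf1⟩ := hblk
    obtain ⟨ξ2, hξ2, hD2, hCh2, hf2⟩ := ih (nx (ev2 m) c d e).1 (nx (ev2 m) c d e).2.1
      (nx (ev2 m) c d e).2.2 (vnext (mm p q r d e) v ε m) (pth_dist hD _) hok'
      (gact G (blk d e ε m) x) ξ1 (stepV p q r (τ ^ 2) c d e ε m z) hξ1 hCh1 hn'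
    refine ⟨ξ2, hξ2, hD2, ?_, ?_⟩
    · have h3 : gact G (bw (c, d, e) ((ε, m) :: bs)) x =
          gact G (bw (nx (ev2 m) c d e) bs) (gact G (blk d e ε m) x) := pth_append G _ _ x
      rw [h3]
      exact hCh2
    · have h3 : fP p q r (τ ^ 2) (c, d, e) z ((ε, m) :: bs) =
          stepF p q r (τ ^ 2) c d e ε m z *
            fP p q r (τ ^ 2) (nx (ev2 m) c d e) (stepV p q r (τ ^ 2) c d e ε m z) bs := rfl
      rw [h3, hf2, hf1]
      ring

end Pool.Agent.Helper6.MONO
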